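import Pool.Agent.helper57.PP.Spec

/-!
# MP_974a61, row FANB: the boundary of a fan
-/

set_option autoImplicit false

namespace Pool.Agent.helper57.PP

open Finset

private theorem FANB_tri {W : Type} [DecidableEq W] {a b c : W} (hab : a ≠ b) (hac : a ≠ c)
    (hbc : b ≠ c) : bd {({a, b, c} : Finset W)} = {{a, b}, {a, c}, {b, c}} := by
  ext e
  rw [mem_bd]
  have : (cof {({a, b, c} : Finset W)} e) = if e ⊆ {a, b, c} then {{a, b, c}} else ∅ := by
    ext t
    simp only [mem_cof, mem_singleton]
    split_ifs with hh
    · simp only [mem_singleton]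
      constructor
      · tauto
      · rintro rfl
        exact ⟨rfl, hh⟩
    · simp only [notMem_empty, iff_false]
      rintro ⟨rfl, h'⟩
      exact hh h'
  rw [this]
  simp only [mem_insert, mem_singleton]
  constructor
  · rintro ⟨hc, ho⟩
    split_ifs at ho with hh
    · obtain ⟨x, y, hxy, rfl⟩ := Finset.card_eq_two.1 hc
      have hx : x ∈ ({a, b, c} : Finset W) := hh (by simp)
      have hy : y ∈ ({a, b, c} : Finset W) := hh (by simp)
      simp only [mem_insert, mem_singleton] at hx hy
      rcases hx with rfl | rfl | rfl <;> rcases hy with rfl | rfl | rfl <;>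
        simp_all [Finset.pair_comm]
    · simp at ho
  · have hs : ∀ u v : W, u ∈ ({a, b, c} : Finset W) → v ∈ ({a, b, c} : Finset W) →
        ({u, v} : Finset W) ⊆ {a, b, c} := by
      intro u v hu hv w hw
      simp only [mem_insert, mem_singleton] at hw
      rcases hw with rfl | rfl <;> assumption
    rintro (rfl | rfl | rfl)
    · exact ⟨Finset.card_pair hab, by rw [if_pos (hs _ _ (by simp) (by simp))]; simp⟩
    · exact ⟨Finset.card_pair hac, by rw [if_pos (hs _ _ (by simp) (by simp))]; simp⟩
    · exact ⟨Finset.card_pair hbc, by rw [if_pos (hs _ _ (by simp) (by simp))]; simp⟩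

/-- two pairs with a common element -/
private theorem FANB_pair {W : Type} [DecidableEq W] {a b c : W} (hbc : b ≠ c) :
    ({a, b} : Finset W) ≠ {a, c} := by
  intro h
  have h1 : b ∈ ({a, c} : Finset W) := by rw [← h]; simp
  have h2 : c ∈ ({a, b} : Finset W) := by rw [h]; simp
  simp only [mem_insert, mem_singleton] at h1 h2
  rcases h1 with rfl | h1
  · rcases h2 with rfl | h2
    · exact hbc rfl
    · exact hbc h2.symm
  · exact hbc h1

private theorem FANB_not {W : Type} [DecidableEq W] {a b c d : W} (h1 : a ≠ c) (h2 : a ≠ d) :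
    ({a, b} : Finset W) ≠ {c, d} := by
  intro h
  have h3 : a ∈ ({c, d} : Finset W) := by rw [← h]; simp
  simp only [mem_insert, mem_singleton] at h3
  tauto

private theorem FANB_main {W : Type} [DecidableEq W] (x : W) (yr : W) (mid : List W) :
    ∀ y0 : W, (y0 :: (mid ++ [yr])).Nodup → x ∉ y0 :: (mid ++ [yr]) →
    bd (fan x (y0 :: (mid ++ [yr]))) = {{x, y0}, {x, yr}} ∪ pe (y0 :: (mid ++ [yr])) := by
  induction mid with
  | nil =>
    intro y0 hnd hx
    have h1 : x ≠ y0 := fun h => hx (by simp [h])
    have h2 : x ≠ yr := fun h => hx (by simp [h])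
    have h3 : y0 ≠ yr := by
      rintro rfl
      simp at hnd
    have e1 : fan x (y0 :: ([] ++ [yr])) = {({x, y0, yr} : Finset W)} := by
      unfold fan
      simp only [List.nil_append, pe_cons_cons, pe_singleton, insert_empty_eq, image_singleton]
    rw [e1, FANB_tri h1 h2 h3]
    ext e
    simp only [List.nil_append, pe_cons_cons, pe_singleton, insert_empty_eq, mem_union, mem_insert,
      mem_singleton]
    tauto
  | cons c mid ih =>
    intro y0 hnd hx
    have hnd' : (c :: (mid ++ [yr])).Nodup := (List.nodup_cons.1 hnd).2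
    have hy0 : y0 ∉ c :: (mid ++ [yr]) := (List.nodup_cons.1 hnd).1
    have hx' : x ∉ c :: (mid ++ [yr]) := fun h => hx (List.mem_cons_of_mem _ h)
    have h1 : x ≠ y0 := fun h => hx (by simp [h])
    have h2 : x ≠ c := fun h => hx (by simp [h])
    have h3 : x ≠ yr := fun h => hx (by simp [h])
    have h4 : y0 ≠ c := fun h => hy0 (by simp [h])
    have h5 : y0 ≠ yr := fun h => hy0 (by simp [h])
    have h6 : c ≠ yr := by
      rintro rfl
      simp at hnd'
    have ih' := ih c hnd' hx'
    have hnot : ({x, y0, c} : Finset W) ∉ fan x (c :: (mid ++ [yr])) := by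
      intro h
      unfold fan at h
      rw [mem_image] at h
      obtain ⟨e, he, hee⟩ := h
      have h7 : y0 ∈ insert x e := by
        rw [hee]
        simp
      rw [mem_insert] at h7
      rcases h7 with h7 | h7
      · exact h1 h7.symm
      · exact hy0 (mem_of_mem_pe he h7)
    have e1 : fan x (y0 :: (c :: mid ++ [yr])) =
        symmDiff {({x, y0, c} : Finset W)} (fan x (c :: (mid ++ [yr]))) := by
      have e2 : fan x (y0 :: (c :: mid ++ [yr])) =
          insert {x, y0, c} (fan x (c :: (mid ++ [yr]))) := by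
        unfold fan
        rw [List.cons_append, pe_cons_cons, image_insert]
      rw [e2]
      ext t
      simp only [mem_insert, mem_symmDiff, mem_singleton]
      constructor
      · rintro (rfl | ht)
        · exact Or.inl ⟨rfl, hnot⟩
        · exact Or.inr ⟨ht, fun hh => hnot (hh ▸ ht)⟩
      · tauto
    rw [e1, bd_symmDiff, ih', FANB_tri h1 h2 h4, List.cons_append, pe_cons_cons]
    have n1 : ({x, y0} : Finset W) ∉ pe (c :: (mid ++ [yr])) := fun h =>
      hx' (mem_of_mem_pe h (by simp))
    have n2 : ({x, c} : Finset W) ∉ pe (c :: (mid ++ [yr])) := fun h =>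
      hx' (mem_of_mem_pe h (by simp))
    have n3 : ({x, yr} : Finset W) ∉ pe (c :: (mid ++ [yr])) := fun h =>
      hx' (mem_of_mem_pe h (by simp))
    have n4 : ({y0, c} : Finset W) ∉ pe (c :: (mid ++ [yr])) := fun h =>
      hy0 (mem_of_mem_pe h (by simp))
    have d1 : ({x, y0} : Finset W) ≠ {x, c} := FANB_pair h4
    have d2 : ({x, y0} : Finset W) ≠ {x, yr} := FANB_pair h5
    have d3 : ({x, c} : Finset W) ≠ {x, yr} := FANB_pair h6
    have d4 : ({x, y0} : Finset W) ≠ {y0, c} := FANB_not h1 h2
    have d5 : ({x, c} : Finset W) ≠ {y0, c} := FANB_not h1 h2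
    have d6 : ({x, yr} : Finset W) ≠ {y0, c} := FANB_not h1 h2
    ext e
    simp only [mem_symmDiff, mem_union, mem_insert, mem_singleton]
    by_cases a1 : e = {x, y0}
    · subst a1
      simp [d1, d2, d4, n1]
    · by_cases a2 : e = {x, c}
      · subst a2
        simp [d1.symm, d3, d5, n2]
      · by_cases a3 : e = {x, yr}
        · subst a3
          simp [d2.symm, d3.symm, d6]
        · by_cases a4 : e = {y0, c}
          · subst a4
            simp [n4, d5.symm, d6.symm]
          · simp [a1, a2, a3, a4]

theorem FANB : FANB_stmt := by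
  intro W _ x y0 mid yr hnd hx
  refine ⟨FANB_main x yr mid y0 hnd hx, ?_⟩
  rw [disjoint_left]
  intro e he he'
  rw [mem_insert, mem_singleton] at he
  have hxe : x ∈ e := by
    rcases he with rfl | rfl <;> simp
  exact hx (mem_of_mem_pe he' hxe)

end Pool.Agent.helper57.PP
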