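import Pool.Agent.helper57.PP.Spec

/-!
# MP_974a61, row HS: the half and the whole sphere
-/

set_option autoImplicit false

namespace Pool.Agent.helper57.PP

open Finset

/-- in a connected graph of a surface every vertex lies in a triangle -/
private theorem HS_mem {W : Type} [DecidableEq W] {G : Finset (Finset W)}
    (hconn : (gr (edges G)).Connected) (hne : G.Nonempty) (h3 : ∀ t ∈ G, t.card = 3) (x : W) :
    ∃ t ∈ G, x ∈ t := by
  obtain ⟨t0, ht0⟩ := hne
  have hc := h3 t0 ht0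
  obtain ⟨y, hy, hyx⟩ : ∃ y ∈ t0, y ≠ x := by
    have h1 : 1 < t0.card := by omega
    exact exists_mem_ne h1 x
  obtain ⟨w⟩ := hconn.preconnected x y
  cases w with
  | nil => exact absurd rfl hyx
  | cons h _ =>
    obtain ⟨_, h⟩ := h
    obtain ⟨_, t, ht, hs⟩ := mem_edges.1 h
    exact ⟨t, ht, hs (by simp)⟩

theorem HS (h1 : ISO_stmt) (h2 : ZT_stmt) (h3 : ALN_stmt) : HS_stmt := by
  intro W _ G σ m p A hD hG hA
  obtain ⟨_, i2, i3, _, _, _⟩ := h1 W G σ m p hD hG
  obtain ⟨_, _, z3, z4, _, _, _⟩ := h2 W m p hG.m3 i2 i3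
  have hstar : ∀ x ∈ vs A, (∀ i, x ≠ p i) → cof A {x} = cof G {x} := by
    intro x hx hxp
    refine h3 W G A x hD.surf hA.sub hx ?_
    intro e he hxe
    rw [hA.bdA] at he
    obtain ⟨i, _, hi⟩ := z4 e he x hxe
    exact hxp i hi
  refine ⟨?_, ?_, hstar, ?_, ?_, ?_, ?_⟩
  · intro e he hez
    have h5 : ¬ Odd (cof A e).card := by
      intro h
      apply hez
      rw [← hA.bdA]
      exact mem_bd.2 ⟨he, h⟩
    rw [Nat.not_odd_iff_even] at h5
    rcases Nat.eq_zero_or_pos (cof A e).card with h6 | h6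
    · left
      exact card_eq_zero.1 h6
    · right
      have h7 : e ∈ edges A := (edges_iff_cof_nonempty he).2 (card_pos.1 h6)
      have h8 := hD.surf.two e (edges_mono hA.sub h7)
      apply eq_of_subset_of_card_le (cof_mono hA.sub e)
      obtain ⟨k, hk⟩ := h5
      omega
  · intro e he
    rw [← hA.bdA] at he
    have h7 : e ∈ edges A := bd_subset_edges A he
    have h8 := hD.surf.two e (edges_mono hA.sub h7)
    have h9 := card_le_card (cof_mono hA.sub e)
    obtain ⟨_, k, hk⟩ := mem_bd.1 he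
    refine ⟨?_, h8⟩
    omega
  · intro x hx hxp hσ
    obtain ⟨t, ht, hxt⟩ := mem_vs.1 hσ
    have h5 : t.image σ ∈ cof G {x} := by
      rw [mem_cof, singleton_subset_iff]
      refine ⟨hD.inv t (hA.sub ht), ?_⟩
      rw [mem_image]
      exact ⟨σ x, hxt, hD.invol x⟩
    rw [← hstar x hx hxp] at h5
    exact (hA.half t (hA.sub ht)).1 ht (mem_cof.1 h5).1
  · intro x
    obtain ⟨t, ht, hxt⟩ := HS_mem hD.conn hD.ne hD.surf.card3 x
    by_cases htA : t ∈ A
    · left
      exact mem_vs.2 ⟨t, htA, hxt⟩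
    · right
      have h5 : t.image σ ∈ A := by
        by_contra h
        exact htA ((hA.half t ht).2 h)
      exact mem_vs.2 ⟨_, h5, mem_image_of_mem σ hxt⟩
  · intro i
    have h5 : ({p i, p (i + 1)} : Finset W) ∈ edges A := by
      apply bd_subset_edges A
      rw [hA.bdA]
      exact z3 i
    exact ⟨left_mem_vs h5, h5⟩
  · intro x hx hxp y hxy
    obtain ⟨h5, t, ht, hs⟩ := mem_edges.1 hxy
    have h6 : t ∈ cof G {x} := by
      rw [mem_cof, singleton_subset_iff]
      exact ⟨ht, hs (by simp)⟩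
    rw [← hstar x hx hxp] at h6
    exact mem_edges.2 ⟨h5, t, (mem_cof.1 h6).1, hs⟩

end Pool.Agent.helper57.PP
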