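import Pool.Agent.helper57.PP.Spec

/-!
# MP_974a61, row SEP: the neighbours of an inner vertex of a segment cut off by a chord
-/

set_option autoImplicit false

namespace Pool.Agent.helper57.PP

open Finset

section aux

variable {W : Type} [DecidableEq W]

private theorem SEP_split (A1 : List W) (x : W) (M : List W) (y : W) (B : List W) :
    pe (A1 ++ x :: (M ++ y :: B)) = pe (A1 ++ [x]) ∪ (pe (x :: (M ++ [y])) ∪ pe (y :: B)) := by
  rw [pe_append A1 x (M ++ y :: B)]
  have h : x :: (M ++ y :: B) = (x :: M) ++ y :: B := rfl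
  rw [h, pe_append (x :: M) y B]
  rfl

private theorem SEP_pe {A1 : List W} {x : W} {M : List W} {y : W} {B : List W}
    (hnd : (A1 ++ x :: (M ++ y :: B)).Nodup) {v : W} (hv : v ∈ M) {e : Finset W}
    (he : e ∈ pe (A1 ++ x :: (M ++ y :: B))) (hve : v ∈ e) : e ∈ pe (x :: (M ++ [y])) := by
  rw [SEP_split] at he
  have h1 : v ∉ A1 ++ [x] := by
    intro h
    rw [List.mem_append, List.mem_singleton] at h
    rw [List.nodup_append] at hnd
    obtain ⟨_, h2, h3⟩ := hnd
    rcases h with h | h
    · exact h3 v h v (by simp [hv]) rfl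
    · subst h
      rw [List.nodup_cons] at h2
      exact h2.1 (by simp [hv])
  have h2 : v ∉ y :: B := by
    intro h
    rw [List.nodup_append] at hnd
    obtain ⟨_, h2, _⟩ := hnd
    rw [List.nodup_cons, List.nodup_append] at h2
    exact h2.2.2.2 v hv v h rfl
  rcases mem_union.1 he with he | he
  · exact absurd (mem_of_mem_pe he hve) h1
  · rcases mem_union.1 he with he | he
    · exact he
    · exact absurd (mem_of_mem_pe he hve) h2

/-- a star which is all-or-none -/
private theorem SEP_star {T A : Finset (Finset W)} (hT : StarConn T)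
    (hle : ∀ e : Finset W, e.card = 2 → (cof T e).card ≤ 2) (hA : A ⊆ T) (w : W)
    (hne : (cof A {w}).Nonempty) (hbd : ∀ e : Finset W, w ∈ e → e ∉ bd A) :
    cof A {w} = cof T {w} := by
  apply hT w (cof A {w}) (cof_mono hA _) hne
  intro e he hwe
  rw [cof_cof A hwe]
  have h1 := cof_mono hA e
  have h2 : ¬ Odd (cof A e).card := fun h => hbd e hwe (mem_bd.2 ⟨he, h⟩)
  rw [Nat.not_odd_iff_even] at h2
  have h3 := hle e he
  have h4 := card_le_card h1
  rcases Nat.eq_zero_or_pos (cof A e).card with h5 | h5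
  · left
    exact card_eq_zero.1 h5
  · right
    apply eq_of_subset_of_card_le h1
    obtain ⟨k, hk⟩ := h2
    omega

end aux

theorem SEP (h1 : INR_stmt) (h2 : SEP1_stmt) (h3 : SEP2_stmt) : SEP_stmt := by
  intro W _ T R a z bs ts A1 x M y B hD hSt hM hxy v hv
  obtain ⟨_, A, hAR, hA⟩ := h2 W T R a z bs ts A1 x M y B hD hSt hM hxy
  have hS2 := h3 W T R A a z bs ts A1 x M y B hD hSt hM hxy hAR hA v hv
  refine ⟨hS2.1, ?_⟩
  intro w hw hvw
  by_contra hno
  rw [not_or, not_or] at hno
  obtain ⟨hwx, hwy, hwM⟩ := hno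
  have hvC : v ∈ A1 ++ x :: (M ++ y :: B) := by simp [hv]
  have hwp : w ∉ x :: (M ++ [y]) := by
    simp [hwx, hwy, hwM]
  -- no edge at `w` is in the boundary of `A`
  have hbd : ∀ e : Finset W, w ∈ e → e ∉ bd A := by
    intro e hwe he
    rw [hA, mem_insert] at he
    rcases he with rfl | he
    · rw [mem_insert, mem_singleton] at hwe
      tauto
    · exact hwp (mem_of_mem_pe he hwe)
  -- the edge `vw` is below the path
  have hR : ({v, w} : Finset W) ∈ edges R := by
    by_cases hwC : w ∈ A1 ++ x :: (M ++ y :: B)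
    · rcases hSt.up v hvC w hwC hvw with h | h
      · exact h
      · exfalso
        have h4 := SEP_pe hSt.nd hv h (by simp)
        exact hwp (mem_of_mem_pe h4 (by simp))
    · have hwb : w ∈ pth a bs z := by tauto
      obtain ⟨cs, hcs⟩ := hSt.ends
      have ha : w ≠ a := by
        rintro rfl
        apply hwC
        rw [hcs]
        simp [pth]
      have hz : w ≠ z := by
        rintro rfl
        apply hwC
        rw [hcs]
        simp [pth]
      have hwbs : w ∈ bs := by
        unfold pth at hwb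
        rw [List.mem_cons, List.mem_append, List.mem_singleton] at hwb
        tauto
      have h4 := (h1 W T R a z bs ts _ hD hSt w hwC (Or.inr hwbs)).1
      obtain ⟨h5, t, ht, hsub⟩ := mem_edges.1 hvw
      refine mem_edges.2 ⟨h5, t, h4 (mem_cof.2 ⟨ht, ?_⟩), hsub⟩
      rw [singleton_subset_iff]
      exact hsub (by simp)
  obtain ⟨_, τ, hτR, hτ⟩ := mem_edges.1 hR
  have hvτ : v ∈ τ := hτ (by simp)
  have hwτ : w ∈ τ := hτ (by simp)
  have hτA : τ ∈ A := hS2.2 (mem_cof.2 ⟨hτR, by rw [singleton_subset_iff]; exact hvτ⟩)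
  have hAT : A ⊆ T := hAR.trans hSt.sub
  have hstar : cof A {w} = cof T {w} :=
    SEP_star hD.star hD.le2 hAT w
      ⟨τ, mem_cof.2 ⟨hτA, by rw [singleton_subset_iff]; exact hwτ⟩⟩ hbd
  have hsub : cof T {w} ⊆ A := by
    rw [← hstar]
    exact cof_subset A _
  by_cases hwb : w ∈ pth a bs z
  · obtain ⟨e, he, hwe⟩ := exists_pe_of_mem hwb
    have h4 : e ∈ bd T := by
      rw [hD.bdT]
      exact mem_union_left _ he
    obtain ⟨h5, h6⟩ := mem_bd.1 h4
    have h7 : cof A e = cof T e := by
      apply Subset.antisymm (cof_mono hAT e)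
      intro t ht
      rw [mem_cof] at ht ⊢
      exact ⟨hsub (mem_cof.2 ⟨ht.1, by rw [singleton_subset_iff]; exact ht.2 hwe⟩), ht.2⟩
    apply hbd e hwe
    rw [mem_bd, h7]
    exact ⟨h5, h6⟩
  · have hwC : w ∈ A1 ++ x :: (M ++ y :: B) := by tauto
    obtain ⟨cs, hcs⟩ := hSt.ends
    have hwC' : w ∈ pth a cs z := by rw [← hcs]; exact hwC
    obtain ⟨e, he, hwe⟩ := exists_pe_of_mem hwC'
    rw [← hcs] at he
    have h4 : e ∈ bd R := by
      rw [hSt.bdR, mem_symmDiff]
      right
      exact ⟨he, fun h => hwb (mem_of_mem_pe h hwe)⟩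
    obtain ⟨h5, h6⟩ := mem_bd.1 h4
    have h7 : cof A e = cof R e := by
      apply Subset.antisymm (cof_mono hAR e)
      intro t ht
      rw [mem_cof] at ht ⊢
      exact ⟨hsub (mem_cof.2 ⟨hSt.sub ht.1, by rw [singleton_subset_iff]; exact ht.2 hwe⟩), ht.2⟩
    apply hbd e hwe
    rw [mem_bd, h7]
    exact ⟨h5, h6⟩

end Pool.Agent.helper57.PP
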